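import Pool.Agent.Q148.InvTriDefs
import Pool.Agent.Q148.InvTriMain

open Q148.InvTri

namespace Pool.Agent.Results.MP_ee8878_co.InvariantTriangulation

/-- For every finite group `Γ` and every `N ≥ 1` that is not a multiple of the order of `Γ`, the
group `Γ × Γ` has a bad polytope for `N`; in particular some finite group `G` has a bad polytope
for its exponent `Monoid.exponent G`. -/
theorem result :
    (∀ (Γ : Type) [Group Γ] [Fintype Γ] (N : ℕ), 0 < N → ¬ Fintype.card Γ ∣ N →
      HasBadPolytope (Γ × Γ) N) ∧
    ∃ (G : Type) (_ : Group G), Finite G ∧ HasBadPolytope G (Monoid.exponent G) := by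
  classical
  refine ⟨fun Γ _ _ N hN h => bad Γ N hN h, ?_⟩
  let V4 := Multiplicative (ZMod 2 × ZMod 2)
  refine ⟨V4 × V4, inferInstance, inferInstance, ?_⟩
  have hexp : Monoid.exponent (V4 × V4) ∣ 2 := by
    apply Monoid.exponent_dvd_of_forall_pow_eq_one
    decide
  have hne : Monoid.exponent (V4 × V4) ≠ 0 := Monoid.exponent_ne_zero_of_finite
  apply bad V4 _ (Nat.pos_of_ne_zero hne)
  intro h
  have h2 : Fintype.card V4 ∣ 2 := h.trans hexp
  revert h2
  decide

end Pool.Agent.Results.MP_ee8878_co.InvariantTriangulation
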